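import Pool.Agent.Helper398.SccG

set_option autoImplicit false

namespace Pool.Agent.Results.MP_c57e60_co.Unbounded

open Pool.Agent.Helper398.SccA Pool.Agent.Helper398.SccB Pool.Agent.Helper398.SccC
  Pool.Agent.Helper398.SccD Pool.Agent.Helper398.SccE

/-- `G` is 3-connected: more than 3 vertices, and deleting at most 2 vertices leaves a
connected graph. -/
def ThreeConnected {V : Type} [Fintype V] (G : SimpleGraph V) : Prop :=
  3 < Fintype.card V ∧
    ∀ S : Finset V, S.card < 3 → (G.induce ((↑S : Set V)ᶜ)).Connected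

/-- A cycle cover: a finite list of cycles such that every edge lies in one of them. -/
def IsCycleCover {V : Type} (G : SimpleGraph V) (F : List (Σ u : V, G.Walk u u)) : Prop :=
  (∀ C ∈ F, C.2.IsCycle) ∧ ∀ e ∈ G.edgeSet, ∃ C ∈ F, e ∈ C.2.edges

/-- The length of a family of cycles. -/
def coverLength {V : Type} {G : SimpleGraph V} (F : List (Σ u : V, G.Walk u u)) : ℕ :=
  (F.map (fun C => C.2.length)).sum

/-- A shortest cycle cover. -/
def IsShortestCover {V : Type} (G : SimpleGraph V) (F : List (Σ u : V, G.Walk u u)) : Prop :=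
  IsCycleCover G F ∧ ∀ F' : List (Σ u : V, G.Walk u u), IsCycleCover G F' →
    coverLength F ≤ coverLength F'

/-- The number of members of `F` containing `e`. -/
def mult {V : Type} [DecidableEq V] {G : SimpleGraph V} (F : List (Σ u : V, G.Walk u u))
    (e : Sym2 V) : ℕ :=
  F.countP (fun C => decide (e ∈ C.2.edges))

/-- `t_F`: the largest number of members of `F` that contain one common edge. -/
noncomputable def maxMult {V : Type} [DecidableEq V] {G : SimpleGraph V}
    (F : List (Σ u : V, G.Walk u u)) : ℕ :=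
  ⨆ e : G.edgeSet, mult F e.1

/-- `t_SCC(G)`: the minimum of `t_F` over the shortest cycle covers `F` of `G`. -/
noncomputable def tSCC {V : Type} [DecidableEq V] (G : SimpleGraph V) : ℕ :=
  sInf {t : ℕ | ∃ F : List (Σ u : V, G.Walk u u), IsShortestCover G F ∧ maxMult F = t}

lemma mult_le {V : Type} [DecidableEq V] {G : SimpleGraph V} (F : List (Σ u : V, G.Walk u u))
    (e : Sym2 V) : mult F e ≤ F.length := List.countP_le_length

lemma mult_le_max {V : Type} [DecidableEq V] {G : SimpleGraph V}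
    (F : List (Σ u : V, G.Walk u u)) (e : Sym2 V) (he : e ∈ G.edgeSet) :
    mult F e ≤ maxMult F := by
  unfold maxMult
  exact le_ciSup (f := fun e : G.edgeSet => mult F e.1)
    ⟨F.length, by rintro _ ⟨e, rfl⟩; exact mult_le F e.1⟩ ⟨e, he⟩

lemma exists_shortest {V : Type} (G : SimpleGraph V)
    (h : ∃ F : List (Σ u : V, G.Walk u u), IsCycleCover G F) :
    ∃ F : List (Σ u : V, G.Walk u u), IsShortestCover G F := by
  classical
  have hne : ∃ n : ℕ, ∃ F : List (Σ u : V, G.Walk u u), IsCycleCover G F ∧ coverLength F = n := by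
    obtain ⟨F, hF⟩ := h
    exact ⟨_, F, hF, rfl⟩
  obtain ⟨F, hF, hl⟩ := Nat.find_spec hne
  refine ⟨F, hF, fun F' hF' => ?_⟩
  rw [hl]
  exact Nat.find_min' hne ⟨F', hF', rfl⟩

/-- The key family: for every `d` there is a 3-connected graph with an edge that lies in at
least `d + 2` cycles of every shortest cycle cover. -/
lemma family (d : ℕ) (hd : 1 ≤ d) : ∃ (V : Type) (_ : Fintype V) (_ : DecidableEq V)
    (G : SimpleGraph V), ThreeConnected G ∧ (∃ F, IsCycleCover G F) ∧
      ∃ e ∈ G.edgeSet, ∀ F, IsShortestCover G F → d + 2 ≤ mult F e := by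
  have hS := simp_GG (3 * d + 9) d
  have ht := inj_GG (3 * d + 9) (by omega) d
  have hC := conn_GG (3 * d + 9) (by omega) d
  have hLB := lb_GG (3 * d + 9) d le_rfl
  obtain ⟨n, hn⟩ := UB_GG (3 * d + 9) d
  obtain ⟨c, r, hcov, h0, h1, h2, hcost⟩ := hn n le_rfl
  obtain ⟨L, hL1, hL2, hL3⟩ := Pool.Agent.Helper398.SccG.from_family hS ht c r hcov.even
  have hLcov : IsCycleCover (Pool.Agent.Helper398.SccF.gr (GG (3 * d + 9) d)) L := by
    refine ⟨hL1, fun e he => ?_⟩
    obtain ⟨x, rfl⟩ := (Pool.Agent.Helper398.SccF.mem_edgeSet hS e).1 he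
    have hpos : 0 < Pool.Agent.Helper398.SccF.mult L (Pool.Agent.Helper398.SccF.ed _ x) := by
      rcases x with x | j
      · rw [hL2]; exact hcov.posE x
      · rw [hL3]; exact hcov.posR j
    obtain ⟨C, hC, hCe⟩ := List.countP_pos_iff.1 hpos
    exact ⟨C, hC, by simpa using hCe⟩
  have hlen : 2 * coverLength L = BB (3 * d + 9) d + 2 * (d + 2) := by
    unfold coverLength
    rw [Pool.Agent.Helper398.SccF.length_eq hS ht L hL1, Pool.Agent.Helper398.SccF.sum_split]
    simp only [hL2, hL3]
    unfold cost at hcost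
    rw [Fin.sum_univ_three] at hcost ⊢
    omega
  refine ⟨_, inferInstance, inferInstance, Pool.Agent.Helper398.SccF.gr (GG (3 * d + 9) d),
    Pool.Agent.Helper398.SccG.three_conn hS hC ht, ⟨L, hLcov⟩,
    Pool.Agent.Helper398.SccF.ed _ (Sum.inr 0),
    (Pool.Agent.Helper398.SccF.mem_edgeSet hS _).2 ⟨_, rfl⟩, fun F hF => ?_⟩
  obtain ⟨⟨hF1, hF2⟩, hF3⟩ := hF
  have hle := hF3 L hLcov
  have hcovF := Pool.Agent.Helper398.SccF.cover_cov hS ht F hF1 hF2
  have htwo := Pool.Agent.Helper398.SccF.two_length hS ht F hF1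
  obtain ⟨-, -, hb⟩ := hLB _ _ _ hcovF
  by_contra hlt
  have hlt' : Pool.Agent.Helper398.SccF.mult F (Pool.Agent.Helper398.SccF.ed _ (Sum.inr 0))
      < d + 2 := Nat.lt_of_not_le hlt
  rw [← Pool.Agent.Helper398.SccF.wtR_mult F 0] at hlt'
  have hbig := hb (by omega) hlt'
  have hlenF : coverLength F = (F.map (fun C => C.2.length)).sum := rfl
  rw [← hlenF] at htwo
  omega

/-- Q1 is answered in the negative: for every `k` there is a 3-connected graph `G` such that
every shortest cycle cover of `G` has an edge in more than `k` of its cycles, that is,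
`t_SCC(G) > k`. -/
theorem result : ∀ k : ℕ, ∃ (V : Type) (_ : Fintype V) (_ : DecidableEq V) (G : SimpleGraph V),
    ThreeConnected G ∧ (∃ F, IsShortestCover G F) ∧
      (∀ F, IsShortestCover G F → ∃ e ∈ G.edgeSet, k < mult F e) ∧ k < tSCC G := by
  intro k
  obtain ⟨V, i1, i2, G, hG, hex, e, he, hF⟩ := family (k + 1) (by omega)
  obtain ⟨F0, hF0⟩ := exists_shortest G hex
  have hall : ∀ F, IsShortestCover G F → k < mult F e := by
    intro F hF'
    have := hF F hF'
    omega
  refine ⟨V, i1, i2, G, hG, ⟨F0, hF0⟩, fun F hF' => ⟨e, he, hall F hF'⟩, ?_⟩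
  have hmem : tSCC G ∈ {t : ℕ | ∃ F : List (Σ u : V, G.Walk u u), IsShortestCover G F ∧
      maxMult F = t} := Nat.sInf_mem ⟨_, F0, hF0, rfl⟩
  obtain ⟨F, hF1, hF2⟩ := hmem
  have h1 := hall F hF1
  have h2 := mult_le_max F e he
  omega

end Pool.Agent.Results.MP_c57e60_co.Unbounded
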